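import Mathlib
import Pool.Agent.R405.SchV
import Pool.Agent.R405.IQ5

/-!
Multiplier ideals of arrangements at the points over a number field, all finite sets of places.
-/

set_option autoImplicit false

open Finset NumberField IsDedekindDomain Height

namespace Pool.Agent.W5h77.VM

open MvPolynomial
open Pool.Agent.R405
open Pool.Agent.W180.OP (Pl av wt nrm le_nrm nrm_pos wt_nonneg)

variable {k : Type} [Field k] [NumberField k]

/-- the main inequality over a large field -/
theorem big {K : Type} [Field K] [NumberField K] [Algebra k K] [IsGalois ℚ K]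
    (hi : ∃ z : K, z ^ 2 = -1) (N : ℕ) (hN : 1 ≤ N) {ι : Type} [Fintype ι] [DecidableEq ι]
    (L : ι → Fin N → K) (hL0 : ∀ l, L l ≠ 0) :
    ∃ Z : Finset (Fin N → k), (∀ z ∈ Z, z ≠ 0) ∧ ∀ (a : ℕ) (Fs : Fin a → MvPolynomial (Fin N) k)
      (c : Fin a → K) (d : Fin a → ℕ) (σ : ∀ j, Fin (d j) → ι),
      (∀ j, map (algebraMap k K) (Fs j) = C (c j) * ∏ s, lff (L (σ j s))) → (∃ j, Fs j ≠ 0) →
      ∀ (b : ℕ) (us : Fin b → MvPolynomial (Fin N) k) (e : Fin b → ℕ),
      (∀ i, (us i).IsHomogeneous (e i)) → (∀ i, InMultV Fs (us i)) →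
      ∀ (S : Finset (Pl k)) (ε : ℝ), 0 < ε → ∃ C : ℝ, ∀ x : Fin N → k, x ≠ 0 →
        (∀ z ∈ Z, ∑ j, z j * x j ≠ 0) → (∃ i, aeval x (us i) ≠ 0) →
        ∑ v ∈ S, wt v * (-Real.log (⨆ j, av v (aeval x (Fs j)) / nrm (av v) x ^ d j)
          -(-Real.log (⨆ j, av v (aeval x (us j)) / nrm (av v) x ^ e j))) ≤
          (N + ε) * logHeight x + C := by
  classical
  set H : ι ⊕ Fin N → Fin N → K := Sum.elim L (fun i => Pi.single i 1) with hH
  have hH0 : ∀ l, H l ≠ 0 := by
    intro l
    rcases l with l | i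
    · exact hL0 l
    · intro h
      have := congrFun h i
      simp [hH] at this
  have hspan : ∃ β : Fin N → ι ⊕ Fin N, (Matrix.of fun a => H (β a)).det ≠ 0 := by
    refine ⟨fun i => Sum.inr i, ?_⟩
    have h1 : (Matrix.of fun a => H (Sum.inr a)) = (1 : Matrix (Fin N) (Fin N) K) := by
      ext i j
      simp only [hH, Matrix.of_apply, Sum.elim_inr]
      by_cases h : i = j
      · subst h; simp
      · rw [Pi.single_eq_of_ne (Ne.symm h), Matrix.one_apply_ne h]
    rw [h1, Matrix.det_one]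
    exact one_ne_zero
  obtain ⟨Z0, hZ0, hmain⟩ := schV (k := k) (K := K) hi hN H
  have hfd : FiniteDimensional k K := inferInstance
  choose zl hzl0 hzl using fun l => descend (k := k) (H l) (hH0 l)
  refine ⟨Z0 ∪ univ.image zl, ?_, ?_⟩
  · intro z hz
    rcases Finset.mem_union.1 hz with h | h
    · exact hZ0 z h
    · obtain ⟨l, _, rfl⟩ := Finset.mem_image.1 h
      exact hzl0 l
  intro a Fs c d σ hfac hne b us e hus hm S ε hε
  choose f hf using fun v : Pl k => exists_good (k := k) (K := K) v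
  obtain ⟨C0, hC0, hC0'⟩ := hmain S f (fun v _ => hf v) ε hε
  -- the local constants
  have hloc : ∀ (v : Pl k) (β : Fin N → ι ⊕ Fin N) (i : Fin b), ∃ C : ℝ, 0 ≤ C ∧
      ((Matrix.of fun a => H (β a)).det ≠ 0 → ∀ x : Fin N → K, x ≠ 0 →
      (∀ l, dot (H l) x ≠ 0) →
      (∀ B' : Matrix (Fin N) (Fin N) K, B' * (Matrix.of fun a => H (β a)) = 1 →
        ∀ l i, Matrix.vecMul (H l) B' i ≠ 0 → f v (dot (H (β i)) x) ≤ f v (dot (H l) x)) →
      aeval x (us i) ≠ 0 → 0 < ⨆ j, f v (aeval x (Fs j)) / nrm (f v) x ^ d j →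
      -Real.log (⨆ j, f v (aeval x (Fs j)) / nrm (f v) x ^ d j) ≤
        -Real.log (f v (aeval x (us i)) / nrm (f v) x ^ e i) +
        ∑ i, (Real.log (nrm (f v) x) - Real.log (f v (dot (H (β i)) x))) + C) := by
    intro v β i
    by_cases hβ : (Matrix.of fun a => H (β a)).det ≠ 0
    · set A : Matrix (Fin N) (Fin N) K := Matrix.of fun a => H (β a) with hA
      have hu : IsUnit A.det := IsUnit.mk0 _ hβ
      have hB : A * A⁻¹ = 1 := Matrix.mul_nonsing_inv _ hu
      have hB2 : A⁻¹ * A = 1 := Matrix.nonsing_inv_mul _ hu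
      obtain ⟨C, hC, h⟩ := toricIneq (k := k) (f v) A A⁻¹ hB hB2 H Fs
        c d (fun j s => Sum.inl (σ j s)) hfac (us i) (e i) (hus i) (hm i)
      exact ⟨C, hC, fun _ x hx hL hgr hux hs => h x hx (fun i => hL _)
        (fun l i hli => hgr A⁻¹ hB2 l i hli) hux hs⟩
    · exact ⟨0, le_rfl, fun h => absurd h hβ⟩
  choose C1 hC1' hC1 using hloc
  refine ⟨C0 + ∑ v ∈ S, wt v * ∑ β, ∑ i, C1 v β i, ?_⟩
  intro x hx hZx hux
  set X : Fin N → K := exv K x with hX
  have hX0 : X ≠ 0 := exv_ne hx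
  have hXl : ∀ l, dot (H l) X ≠ 0 := fun l =>
    hzl l x (hZx _ (Finset.mem_union_right _ (Finset.mem_image_of_mem _ (Finset.mem_univ l))))
  choose β hβ hgr using fun v : Pl k => greedy (f v) H hspan X hXl
  have hS := hC0' x hx (fun z hz => hZx z (Finset.mem_union_left _ hz)) hXl β (fun v _ => hβ v)
  have hval : ∀ (v : Pl k) (P : MvPolynomial (Fin N) k), f v (aeval X P) = av v (aeval x P) := by
    intro v P
    rw [← (hf v).ext]
    congr 1
    have h1 : aeval X P = (algebraMap k K) (aeval x P) := by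
      rw [aeval_def, aeval_def, eval₂_comp_left (algebraMap k K)]
      congr 1
    exact h1
  have hnrm : ∀ v : Pl k, nrm (f v) X = nrm (av v) x := fun v => (hf v).nrm_ext x
  have hFx : ∃ j, aeval x (Fs j) ≠ 0 := by
    obtain ⟨j, hj⟩ := hne
    refine ⟨j, fun h0 => ?_⟩
    have h2 : (algebraMap k K) (aeval x (Fs j)) = c j * ∏ s, dot (L (σ j s)) X := by
      have h3 : (algebraMap k K) (aeval x (Fs j)) = eval X (map (algebraMap k K) (Fs j)) := by
        rw [eval_map, aeval_def, eval₂_comp_left (algebraMap k K)]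
        congr 1
      rw [h3, hfac, map_mul, eval_C, map_prod]
      congr 1
      exact Finset.prod_congr rfl fun s _ => eval_lff _ _
    have h4 : c j ≠ 0 := by
      intro h5
      apply hj
      apply map_injective _ (algebraMap k K).injective
      rw [hfac, h5, C_0, zero_mul, map_zero]
    rw [h0, map_zero] at h2
    exact mul_ne_zero h4 (Finset.prod_ne_zero_iff.2 fun s _ => hXl (Sum.inl _)) h2.symm
  have hb : 0 < b := by
    obtain ⟨i, _⟩ := hux
    exact Fin.pos i
  have : Nonempty (Fin b) := ⟨⟨0, hb⟩⟩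
  have hlocx : ∀ v ∈ S, wt v * (-Real.log (⨆ j, av v (aeval x (Fs j)) / nrm (av v) x ^ d j)
          -(-Real.log (⨆ j, av v (aeval x (us j)) / nrm (av v) x ^ e j))) ≤
      wt v * ∑ a, (Real.log (nrm (av v) x) - Real.log (f v (dot (H (β v a)) (exv K x)))) +
        wt v * ∑ β, ∑ i, C1 v β i := by
    intro v hv
    rw [← mul_add]
    refine mul_le_mul_of_nonneg_left ?_ (wt_nonneg v)
    have hxN := nrm_pos (av v) hx
    obtain ⟨i, hi'⟩ := exists_eq_ciSup_of_finite
      (f := fun i : Fin b => av v (aeval x (us i)) / nrm (av v) x ^ e i)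
    have hbdd : BddAbove (Set.range fun i : Fin b => av v (aeval x (us i)) / nrm (av v) x ^ e i) :=
      (Set.finite_range _).bddAbove
    have hpos : 0 < av v (aeval x (us i)) / nrm (av v) x ^ e i := by
      obtain ⟨i1, hi1⟩ := hux
      have h2 : 0 < av v (aeval x (us i1)) / nrm (av v) x ^ e i1 :=
        div_pos ((av v).pos_iff.2 hi1) (pow_pos hxN _)
      have h3 := le_ciSup hbdd i1
      rw [← hi'] at h3
      exact h2.trans_le h3
    have hui : aeval x (us i) ≠ 0 := by
      intro h0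
      rw [h0, map_zero, zero_div] at hpos
      exact lt_irrefl _ hpos
    have huiX : aeval X (us i) ≠ 0 := by
      intro h0
      have h1 := hval v (us i)
      rw [h0, map_zero] at h1
      exact hui ((av v).eq_zero.1 h1.symm)
    have hbddF : BddAbove (Set.range fun j : Fin a => av v (aeval x (Fs j)) / nrm (av v) x ^ d j) :=
      (Set.finite_range _).bddAbove
    have hFpos : 0 < ⨆ j, av v (aeval x (Fs j)) / nrm (av v) x ^ d j := by
      obtain ⟨j, hj⟩ := hFx
      exact (div_pos ((av v).pos_iff.2 hj) (pow_pos hxN _)).trans_le (le_ciSup hbddF j)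
    have h2 := hC1 v (β v) i (hβ v) X hX0 hXl (hgr v) huiX (by simpa only [hval, hnrm] using hFpos)
    simp only [hval, hnrm] at h2
    rw [← hi']
    have h3 : C1 v (β v) i ≤ ∑ β, ∑ i, C1 v β i := by
      have h4 : C1 v (β v) i ≤ ∑ i, C1 v (β v) i :=
        Finset.single_le_sum (f := fun i => C1 v (β v) i) (fun i _ => hC1' v (β v) i)
          (Finset.mem_univ i)
      exact h4.trans (Finset.single_le_sum (f := fun β => ∑ i, C1 v β i)
        (fun β _ => Finset.sum_nonneg fun i _ => hC1' v β i) (Finset.mem_univ (β v)))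
    linarith
  refine (Finset.sum_le_sum hlocx).trans ?_
  rw [Finset.sum_add_distrib]
  linarith

/-- the main inequality -/
theorem main (K : Type) [Field K] [NumberField K] [Algebra k K] (N : ℕ) (hN : 1 ≤ N) {ι : Type}
    [Fintype ι] [DecidableEq ι] (L : ι → Fin N → K) (hL0 : ∀ l, L l ≠ 0) :
    ∃ Z : Finset (Fin N → k), (∀ z ∈ Z, z ≠ 0) ∧ ∀ (a : ℕ) (Fs : Fin a → MvPolynomial (Fin N) k)
      (c : Fin a → K) (d : Fin a → ℕ) (σ : ∀ j, Fin (d j) → ι),
      (∀ j, map (algebraMap k K) (Fs j) = C (c j) * ∏ s, lff (L (σ j s))) → (∃ j, Fs j ≠ 0) →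
      ∀ (b : ℕ) (us : Fin b → MvPolynomial (Fin N) k) (e : Fin b → ℕ),
      (∀ i, (us i).IsHomogeneous (e i)) → (∀ i, InMultV Fs (us i)) →
      ∀ (S : Finset (Pl k)) (ε : ℝ), 0 < ε → ∃ C : ℝ, ∀ x : Fin N → k, x ≠ 0 →
        (∀ z ∈ Z, ∑ j, z j * x j ≠ 0) → (∃ i, aeval x (us i) ≠ 0) →
        ∑ v ∈ S, wt v * (-Real.log (⨆ j, av v (aeval x (Fs j)) / nrm (av v) x ^ d j)
          -(-Real.log (⨆ j, av v (aeval x (us j)) / nrm (av v) x ^ e j))) ≤
          (N + ε) * logHeight x + C := by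
  classical
  obtain ⟨M, hM1, hM2, hi, ⟨φ⟩⟩ := exists_big K
  have : NumberField M := ⟨⟩
  let _ : Algebra K M := φ.toAlgebra
  let _ : Algebra k M := (φ.comp (algebraMap k K)).toAlgebra
  have : IsScalarTower k K M := IsScalarTower.of_algebraMap_eq fun _ => rfl
  obtain ⟨Z, hZ, hmain⟩ := big (k := k) (K := M) hi N hN (fun l j => algebraMap K M (L l j)) (by
    intro l h
    apply hL0 l
    funext j
    have h2 : algebraMap K M (L l j) = 0 := congrFun h j
    exact (map_eq_zero _).1 h2)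
  refine ⟨Z, hZ, fun a Fs c d σ hfac => hmain a Fs (fun j => algebraMap K M (c j)) d σ fun j => ?_⟩
  have h1 := congrArg (map (algebraMap K M)) (hfac j)
  rw [MvPolynomial.map_map, map_mul, map_prod, map_C] at h1
  have h2 : (algebraMap K M).comp (algebraMap k K) = algebraMap k M := rfl
  rw [h2] at h1
  rw [h1]
  congr 1
  exact Finset.prod_congr rfl fun s _ => map_lff _

end Pool.Agent.W5h77.VM
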